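import Pool.Agent.Helper75.PX.Stmts

set_option autoImplicit false

universe u

open Module

namespace Pool.Agent.Helper75.PX

theorem A4_exists_not_mem (K D : Type u) [Field K] [DivisionRing D] [Algebra K D]
    (h : finrank K D = 16) : ∃ x : D, ∀ k : K, x ≠ algebraMap K D k := by
  by_contra hc
  push Not at hc
  have h1 : finrank K D ≤ 1 := by
    refine finrank_le_one (1 : D) ?_
    intro w
    obtain ⟨k, hk⟩ := hc w
    exact ⟨k, by rw [hk, Algebra.algebraMap_eq_smul_one]⟩
  omega

theorem st_A4 (h1 : ST_MPD.{u}) (h2 : ST_MDV.{u}) (h3 : ST_TRZ.{u}) (h4 : ST_TRM.{u})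
    (h5 : ST_MIN.{u}) : ST_A4.{u} := by
  intro K D _ _ _ _ hfr h2K
  have : FiniteDimensional K D := FiniteDimensional.of_finrank_pos (by omega)
  obtain ⟨x, hx⟩ := A4_exists_not_mem K D hfr
  have hint : ∀ y : D, IsIntegral K y := fun y => IsIntegral.of_finite K y
  have hpos : ∀ y : D, 0 < (minpoly K y).natDegree := fun y => minpoly.natDegree_pos (hint y)
  have hle : ∀ y : D, (minpoly K y).natDegree ≤ 4 := fun y => h1 K D 4 (by norm_num)
    (by rw [hfr]; norm_num) y
  have hdvd : ∀ y : D, (minpoly K y).natDegree ∣ 16 := fun y => by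
    have := h2 K D y
    rwa [hfr] at this
  have hx1 : (minpoly K x).natDegree ≠ 1 := by
    intro h
    rw [minpoly.natDegree_eq_one_iff] at h
    obtain ⟨k, hk⟩ := h
    exact hx k hk.symm
  obtain ⟨v, hv0, hv1, hv2⟩ := h3 K D x (by have := hpos x; omega) (by
    have := hle x; rw [hfr]; omega)
  have h16 : ((finrank K D : ℕ) : K) ≠ 0 := by
    rw [hfr]
    have : ((16 : ℕ) : K) = 2 ^ 4 := by norm_num
    rw [this]
    exact pow_ne_zero _ h2K
  have ht1 := h4 K D v h16 hv1
  have ht2 := h4 K D v⁻¹ h16 hv2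
  obtain ⟨hm1, hm2⟩ := h5 K D v hv0
  rw [hm1] at ht2
  have ht3 := hm2 ht2
  have hroot := minpoly.aeval K v
  have hmon := minpoly.monic (hint v)
  rw [Polynomial.aeval_eq_sum_range] at hroot
  have hlead : (minpoly K v).coeff (minpoly K v).natDegree = 1 := hmon
  have hcases : (minpoly K v).natDegree = 1 ∨ (minpoly K v).natDegree = 2 ∨
      (minpoly K v).natDegree = 4 := by
    have a1 := hpos v
    have a2 := hle v
    have a3 := hdvd v
    interval_cases (minpoly K v).natDegree
    · left; rfl
    · right; left; rfl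
    · exfalso; revert a3; decide
    · right; right; rfl
  rcases hcases with hm | hm | hm
  · exfalso
    rw [hm] at hroot hlead ht1
    simp only [Finset.sum_range_succ, Finset.sum_range_zero, zero_add] at hroot
    simp only [Nat.sub_self] at ht1
    rw [ht1, hlead] at hroot
    simp at hroot
    exact hv0 hroot
  · rw [hm] at hroot hlead ht1
    simp only [Finset.sum_range_succ, Finset.sum_range_zero, zero_add] at hroot
    rw [hlead, ht3] at hroot
    simp only [pow_zero, pow_one, zero_smul, add_zero, one_smul] at hroot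
    refine ⟨v, -(minpoly K v).coeff 0, ?_, ?_⟩
    · rw [← pow_two, map_neg, Algebra.algebraMap_eq_smul_one]
      rw [add_comm] at hroot
      exact eq_neg_of_add_eq_zero_left hroot
    · intro k hk
      have : (minpoly K v).natDegree = 1 := by
        rw [minpoly.natDegree_eq_one_iff]
        exact ⟨k, hk.symm⟩
      omega
  · rw [hm] at hroot hlead ht1
    simp only [Finset.sum_range_succ, Finset.sum_range_zero, zero_add] at hroot
    have ht1' : (minpoly K v).coeff 3 = 0 := ht1
    rw [hlead, ht3, ht1'] at hroot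
    simp only [pow_zero, zero_smul, add_zero, one_smul] at hroot
    set c0 := (minpoly K v).coeff 0 with hc0
    set c2 := (minpoly K v).coeff 2 with hc2
    -- c0 • 1 + c2 • v^2 + v^4 = 0
    have h22 : (2 : K)⁻¹ * 2 = 1 := inv_mul_cancel₀ h2K
    refine ⟨v ^ 2 + algebraMap K D (2⁻¹ * c2), (2⁻¹ * c2) ^ 2 - c0, ?_, ?_⟩
    · have hcomm : v ^ 2 * algebraMap K D (2⁻¹ * c2) = algebraMap K D (2⁻¹ * c2) * v ^ 2 :=
        (Algebra.commutes _ _).symm
      have hv4 : v ^ 4 = -(algebraMap K D c0) - algebraMap K D c2 * v ^ 2 := by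
        rw [Algebra.smul_def, Algebra.smul_def, mul_one] at hroot
        rw [eq_sub_iff_add_eq, eq_neg_iff_add_eq_zero, ← hroot]
        abel
      have hsum : algebraMap K D (2⁻¹ * c2) + algebraMap K D (2⁻¹ * c2) = algebraMap K D c2 := by
        rw [← map_add]
        congr 1
        have : 2⁻¹ * c2 + 2⁻¹ * c2 = (2⁻¹ * 2) * c2 := by ring
        rw [this, h22, one_mul]
      have hsq : v ^ 2 * v ^ 2 = v ^ 4 := by rw [← pow_add]
      have hsq2 : algebraMap K D ((2⁻¹ * c2) ^ 2) =
          algebraMap K D (2⁻¹ * c2) * algebraMap K D (2⁻¹ * c2) := by rw [pow_two, map_mul]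
      calc (v ^ 2 + algebraMap K D (2⁻¹ * c2)) * (v ^ 2 + algebraMap K D (2⁻¹ * c2))
          = v ^ 2 * v ^ 2 + (algebraMap K D (2⁻¹ * c2) + algebraMap K D (2⁻¹ * c2)) * v ^ 2 +
            algebraMap K D (2⁻¹ * c2) * algebraMap K D (2⁻¹ * c2) := by
              rw [mul_add, add_mul, add_mul, hcomm, add_mul]
              abel
        _ = algebraMap K D ((2⁻¹ * c2) ^ 2 - c0) := by
              rw [hsum, hsq, hv4, map_sub, hsq2]
              abel
    · intro k hk
      have hv2 : v ^ 2 = algebraMap K D (k - 2⁻¹ * c2) := by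
        rw [map_sub, ← hk]
        abel
      have hp : Polynomial.aeval v (Polynomial.X ^ 2 - Polynomial.C (k - 2⁻¹ * c2)) = 0 := by
        simp only [map_sub, map_pow, Polynomial.aeval_X, Polynomial.aeval_C]
        rw [hv2]
        simp
      have hmonic : (Polynomial.X ^ 2 - Polynomial.C (k - 2⁻¹ * c2) : Polynomial K).Monic :=
        Polynomial.monic_X_pow_sub_C _ (by norm_num)
      have hdeg := minpoly.min K v hmonic hp
      have hnd := Polynomial.natDegree_le_natDegree hdeg
      rw [Polynomial.natDegree_X_pow_sub_C] at hnd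
      omega

end Pool.Agent.Helper75.PX
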