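import Pool.Agent.Helper75.PX.Stmts2

set_option autoImplicit false

universe u

open Module TensorProduct

namespace Pool.Agent.Helper75.PX

theorem INDG_transport (K X Y : Type u) [Field K] [Ring X] [Algebra K X] [Ring Y] [Algebra K Y]
    (φ : X ≃ₐ[K] Y) (e : X) :
    finrank K (LinearMap.range (LinearMap.mulRight K (φ e))) =
      finrank K (LinearMap.range (LinearMap.mulRight K e)) := by
  have : LinearMap.range (LinearMap.mulRight K (φ e)) =
      Submodule.map (φ.toLinearEquiv : X →ₗ[K] Y) (LinearMap.range (LinearMap.mulRight K e)) := by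
    ext y
    constructor
    · rintro ⟨x, rfl⟩
      refine ⟨LinearMap.mulRight K e (φ.symm x), ⟨_, rfl⟩, ?_⟩
      simp
    · rintro ⟨_, ⟨x, rfl⟩, rfl⟩
      exact ⟨φ x, by simp⟩
  rw [this]
  exact LinearEquiv.finrank_map_eq φ.toLinearEquiv (LinearMap.range (LinearMap.mulRight K e))

theorem st_INDG (h1 : ST_WA.{u}) (h2 : ST_DIM.{u}) (h3 : ST_MCR.{u}) (h4 : ST_MMM.{u})
    (h5 : ST_MCS.{u}) : ST_INDG.{u} := by
  intro K X _ _ _ _ _ ι _ _ Ψ hspan hN hfr e m hm hδ hmN
  set N := Fintype.card ι with hNdef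
  have hfd : FiniteDimensional K X := FiniteDimensional.of_finrank_pos (by
    rw [hfr]; positivity)
  obtain ⟨r, D, i1, i2, hr, hfdD, hcen, hfin, ⟨φ⟩⟩ := h1 K X
  have hd := h2 K X (AlgebraicClosure K) ι Ψ hspan hN hfr e
  have hdvd := h3 K D r (φ e)
  rw [INDG_transport, hd] at hdvd
  rw [hfr] at hfin
  have hrN : r ∣ N := by
    have : r ^ 2 ∣ N ^ 2 := ⟨finrank K D, hfin⟩
    exact (Nat.pow_dvd_pow_iff (by norm_num)).1 this
  obtain ⟨δ, hNδ⟩ := hrN
  have hDδ : finrank K D = δ ^ 2 := by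
    have h : r ^ 2 * finrank K D = r ^ 2 * δ ^ 2 := by
      rw [← hfin, hNδ]; ring
    exact Nat.eq_of_mul_eq_mul_left (by positivity) h
  have hδpos : 0 < δ := by
    rcases Nat.eq_zero_or_pos δ with h | h
    · rw [h, mul_zero] at hNδ
      omega
    · exact h
  have hδrk : δ ∣ (Ψ e).rank := by
    rw [hDδ] at hdvd
    have e1 : r * δ ^ 2 = (r * δ) * δ := by ring
    have hN2 : Fintype.card ι = r * δ := hNδ
    rw [e1, hN2] at hdvd
    exact Nat.dvd_of_mul_dvd_mul_left (by positivity) hdvd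
  obtain ⟨t, ht⟩ := hδ δ ⟨r, by rw [hNδ]; ring⟩ hδrk
  have htpos : 0 < t := by
    rcases Nat.eq_zero_or_pos t with h | h
    · rw [h, mul_zero] at ht
      omega
    · exact h
  obtain ⟨q, hq⟩ := hmN
  have hq' : N / m = q := by
    rw [hq]
    exact Nat.mul_div_cancel_left q hm
  have hrqt : r = q * t := by
    have h : δ * r = δ * (q * t) := by
      calc δ * r = r * δ := mul_comm _ _
        _ = N := hNδ.symm
        _ = m * q := hq
        _ = δ * t * q := by rw [ht]
        _ = δ * (q * t) := by ring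
    exact Nat.eq_of_mul_eq_mul_left hδpos h
  obtain ⟨c1, c2⟩ := h5 K D t htpos
  obtain ⟨ψ⟩ := h4 K D q t
  subst hrqt
  refine ⟨Matrix (Fin t) (Fin t) D, inferInstance, inferInstance, c1, c2, ?_, ?_⟩
  · rw [Module.finrank_matrix, hDδ, ht]
    simp only [Fintype.card_fin]
    ring
  · rw [hq']
    exact ⟨φ.trans ψ.symm⟩

end Pool.Agent.Helper75.PX
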