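import Pool.Agent.Helper75.PX.Stmts4

set_option autoImplicit false

universe u

namespace Pool.Agent.Helper75.PX

theorem st_SC2c : ST_SC2c.{u} := by
  intro K A _ _ _ i j a b g hg h
  refine ⟨h.hi, ?_, ?_, mul_ne_zero h.b0 (pow_ne_zero _ hg)⟩
  · rw [smul_mul_smul_comm, h.hj, Algebra.smul_def, ← map_mul]
    congr 1
    ring
  · rw [smul_mul_assoc, h.hji, mul_smul_comm]

end Pool.Agent.Helper75.PX
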